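import Mathlib

set_option autoImplicit false

namespace Pool.Agent.MP0426f4

/-- `A` meets the integer interval `[x, x + w]`. -/
def Meets (A : Finset ℕ) (x w : ℕ) : Prop := ∃ a ∈ A, x ≤ a ∧ a ≤ x + w

/-- `(t, 2^j, w)` is admissible for `n`: `w n < d^2` with `d = 2^j`. -/
def Admissible (n j w : ℕ) : Prop := w * n < (2 ^ j) ^ 2

/-- `A` nearly contains a `(t, 2^j, w)`-progression: for some `b` all blocks
`I_1(b), ..., I_{t-1}(b)` meet `A`. -/
def NearlyContains (A : Finset ℕ) (t j w : ℕ) : Prop :=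
  ∃ b : ℕ, ∀ i ∈ Finset.Icc 1 (t - 1), Meets A (b + i * 2 ^ j) w

/-- `A` is a subset of `[1, n]` which nearly contains no admissible `(t, d, w)`-progression. -/
def Avoids (t n : ℕ) (A : Finset ℕ) : Prop :=
  A ⊆ Finset.Icc 1 n ∧ ∀ j w : ℕ, Admissible n j w → ¬ NearlyContains A t j w

/-- For no admissible `(d, w)`, no `b` and no `i ≥ 0` does `A` meet both consecutive blocks
`I_i(b)` and `I_{i+1}(b)`. -/
def NoTwoConsecutive (n : ℕ) (A : Finset ℕ) : Prop :=
  ∀ j w : ℕ, Admissible n j w → ∀ b i : ℕ,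
    ¬ (Meets A (b + i * 2 ^ j) w ∧ Meets A (b + (i + 1) * 2 ^ j) w)

/-- The maximum `g_t(n)` of `|A| / n` over all `A` as in `Avoids` (a maximum over a finite
set, nonempty for `t ≥ 2` because of the empty set). -/
noncomputable def g (t n : ℕ) : ℝ :=
  sSup {x : ℝ | ∃ A : Finset ℕ, Avoids t n A ∧ x = (A.card : ℝ) / n}

end Pool.Agent.MP0426f4
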