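import Mathlib

set_option autoImplicit false

namespace Pool.Agent.MP0426f4

/-- All elements are below `2^l/2`, and no two elements differ by `2^j` up to an error
below `4^j/2^N`, for every `j < l`. -/
def Good (N l : ℕ) (B : Finset ℕ) : Prop :=
  (∀ x ∈ B, 2 * x < 2 ^ l) ∧
    ∀ x ∈ B, ∀ y ∈ B, ∀ j < l, (4 : ℤ) ^ j ≤ |(y : ℤ) - x - 2 ^ j| * 2 ^ N

theorem not_three_dvd_two_pow (k : ℕ) : ¬ (3 : ℤ) ∣ 2 ^ k := by
  intro h
  have h3 : Prime (3 : ℤ) := Int.prime_three
  have := h3.dvd_of_dvd_pow h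
  omega

theorem step (N l l' : ℕ) (B : Finset ℕ) (hB : Good N l B) (hl : l + 3 ≤ l')
    (hl' : 2 * l' ≤ N + l + 1) :
    ∃ B' : Finset ℕ, Good N l' B' ∧ B'.card = B.card * 2 ^ (l' - l - 3) := by
  classical
  obtain ⟨hsmall, hdiff⟩ := hB
  set Y : ℕ := 2 ^ (l' - l - 3) with hY
  have hYl : 2 ^ l * Y * 8 = 2 ^ l' := by
    rw [hY, ← pow_add, show (8 : ℕ) = 2 ^ 3 by norm_num, ← pow_add]
    congr 1; omega
  let f : ℕ × ℕ → ℕ := fun p => 3 * 2 ^ l * p.1 + p.2
  have hP : (0 : ℕ) < 2 ^ l := by positivity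
  refine ⟨(Finset.range Y ×ˢ B).image f, ⟨?_, ?_⟩, ?_⟩
  · intro x hx
    simp only [Finset.mem_image, Finset.mem_product, Finset.mem_range, Prod.exists, f] at hx
    obtain ⟨y, b, ⟨hy, hb⟩, rfl⟩ := hx
    have h1 := hsmall b hb
    have h2 : 2 ^ l * (y + 1) ≤ 2 ^ l * Y := Nat.mul_le_mul_left _ hy
    nlinarith
  · intro x hx x' hx' j hj
    simp only [Finset.mem_image, Finset.mem_product, Finset.mem_range, Prod.exists, f] at hx hx'
    obtain ⟨y, b, ⟨hy, hb⟩, rfl⟩ := hx
    obtain ⟨y', b', ⟨hy', hb'⟩, rfl⟩ := hx'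
    have h1 : (2 : ℤ) * b < 2 ^ l := by exact_mod_cast hsmall b hb
    have h1' : (2 : ℤ) * b' < 2 ^ l := by exact_mod_cast hsmall b' hb'
    have hb0 : (0 : ℤ) ≤ b := by positivity
    have hb0' : (0 : ℤ) ≤ b' := by positivity
    push_cast
    by_cases hjl : j < l
    · by_cases hyy : y = y'
      · subst hyy
        have := hdiff b hb b' hb' j hjl
        have h3 : (3 * 2 ^ l * (y : ℤ) + b' - (3 * 2 ^ l * y + b) - 2 ^ j)
            = (b' : ℤ) - b - 2 ^ j := by
          ring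
        rw [h3]; exact this
      · -- different blocks: the difference is large
        have hj2 : (2 : ℤ) ^ j * 2 ≤ 2 ^ l := by
          rw [← pow_succ]; exact pow_le_pow_right₀ (by norm_num) hjl
        have hj0 : (0 : ℤ) < 2 ^ j := by positivity
        have habs : (2 : ℤ) ^ l ≤
            |3 * 2 ^ l * (y' : ℤ) + b' - (3 * 2 ^ l * y + b) - 2 ^ j| := by
          have h4 : (y' : ℤ) - y ≤ -1 ∨ 1 ≤ (y' : ℤ) - y := by omega
          have hPl : (0 : ℤ) < 2 ^ l := by positivity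
          rcases h4 with h4 | h4
          · have h5 : (2 : ℤ) ^ l * ((y' : ℤ) - y) ≤ 2 ^ l * (-1) := by
              exact mul_le_mul_of_nonneg_left h4 hPl.le
            rw [le_abs]; right; nlinarith
          · have h5 : (2 : ℤ) ^ l * 1 ≤ 2 ^ l * ((y' : ℤ) - y) := by
              exact mul_le_mul_of_nonneg_left h4 hPl.le
            rw [le_abs]; left; nlinarith
        calc (4 : ℤ) ^ j = 2 ^ (2 * j) := by rw [pow_mul]; norm_num
          _ ≤ 2 ^ (l + N) := pow_le_pow_right₀ (by norm_num) (by omega)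
          _ = 2 ^ l * 2 ^ N := by rw [pow_add]
          _ ≤ _ := mul_le_mul_of_nonneg_right habs (by positivity)
    · push Not at hjl
      have hPl : (0 : ℤ) < 2 ^ l := by positivity
      have hjsplit : (2 : ℤ) ^ j = 2 ^ l * 2 ^ (j - l) := by
        rw [← pow_add]; congr 1; omega
      have hne : (3 * ((y' : ℤ) - y) - 2 ^ (j - l)) ≠ 0 := by
        intro h0
        exact not_three_dvd_two_pow (j - l) ⟨(y' : ℤ) - y, by linarith⟩
      have habs : (2 : ℤ) ^ l ≤
          2 * |3 * 2 ^ l * (y' : ℤ) + b' - (3 * 2 ^ l * y + b) - 2 ^ j| := by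
        have h6 : 3 * 2 ^ l * (y' : ℤ) + b' - (3 * 2 ^ l * y + b) - 2 ^ j =
            2 ^ l * (3 * ((y' : ℤ) - y) - 2 ^ (j - l)) + (b' - b) := by
          rw [hjsplit]; ring
        rw [h6]
        have h4 : (3 * ((y' : ℤ) - y) - 2 ^ (j - l)) ≤ -1 ∨
            1 ≤ (3 * ((y' : ℤ) - y) - 2 ^ (j - l)) := by
          omega
        rcases h4 with h4 | h4
        · have h5 := mul_le_mul_of_nonneg_left h4 hPl.le
          have : (2:ℤ) ^ l ≤
              2 * (-(2 ^ l * (3 * ((y' : ℤ) - y) - 2 ^ (j - l)) + (b' - b))) := by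
            linarith
          exact this.trans (mul_le_mul_of_nonneg_left (neg_le_abs _) (by norm_num))
        · have h5 := mul_le_mul_of_nonneg_left h4 hPl.le
          have : (2:ℤ) ^ l ≤
              2 * (2 ^ l * (3 * ((y' : ℤ) - y) - 2 ^ (j - l)) + (b' - b)) := by
            linarith
          exact this.trans (mul_le_mul_of_nonneg_left (le_abs_self _) (by norm_num))
      have h7 : (4 : ℤ) ^ j * 2 ≤ 2 ^ l * 2 ^ N := by
        calc (4 : ℤ) ^ j * 2 = 2 ^ (2 * j + 1) := by rw [pow_succ, pow_mul]; norm_num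
          _ ≤ 2 ^ (l + N) := pow_le_pow_right₀ (by norm_num) (by omega)
          _ = 2 ^ l * 2 ^ N := by rw [pow_add]
      have hN : (0 : ℤ) < 2 ^ N := by positivity
      have h8 := mul_le_mul_of_nonneg_right habs hN.le
      nlinarith
  · rw [Finset.card_image_of_injOn, Finset.card_product, Finset.card_range, mul_comm]
    rintro ⟨y, b⟩ h ⟨y', b'⟩ h' heq
    simp only [Finset.coe_product, Set.mem_prod, Finset.mem_coe, Finset.mem_range] at h h'
    simp only [f] at heq
    have h1 := hsmall b h.2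
    have h1' := hsmall b' h'.2
    have hyy : y = y' := by
      by_contra hne
      rcases Nat.lt_or_gt_of_ne hne with hlt | hlt
      · have : 2 ^ l * (y + 1) ≤ 2 ^ l * y' := Nat.mul_le_mul_left _ hlt
        nlinarith
      · have : 2 ^ l * (y' + 1) ≤ 2 ^ l * y := Nat.mul_le_mul_left _ hlt
        nlinarith
    subst hyy
    have : b = b' := by omega
    rw [this]

/-- Iterating `step`, with `N - l` halving each time, until it is at most `5`. -/
theorem iterate (N s : ℕ) : ∀ l B, l ≤ N → N - l < 6 * 2 ^ s → Good N l B →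
    ∃ l' B', l ≤ l' ∧ l' ≤ N ∧ N ≤ l' + 5 ∧ Good N l' B' ∧
      B.card * 2 ^ l' ≤ B'.card * 2 ^ l * 8 ^ s := by
  induction s with
  | zero =>
    intro l B hl hs hB
    refine ⟨l, B, le_rfl, hl, by omega, hB, by simp⟩
  | succ s ih =>
    intro l B hl hs hB
    by_cases h6 : N - l < 6
    · refine ⟨l, B, le_rfl, hl, by omega, hB, ?_⟩
      have : 1 ≤ 8 ^ (s + 1) := Nat.one_le_pow _ _ (by norm_num)
      nlinarith [Nat.zero_le (B.card * 2 ^ l)]
    · set l₁ := (N + l + 1) / 2 with hl₁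
      have e1 : l + 3 ≤ l₁ := by omega
      have e2 : 2 * l₁ ≤ N + l + 1 := by omega
      have e3 : N - l₁ < 6 * 2 ^ s := by rw [pow_succ] at hs; omega
      obtain ⟨B₁, hB₁, hc₁⟩ := step N l l₁ B hB e1 e2
      obtain ⟨l', B', h1, h2, h3, h4, h5⟩ := ih l₁ B₁ (by omega) e3 hB₁
      refine ⟨l', B', by omega, h2, h3, h4, ?_⟩
      rw [hc₁] at h5
      have e4 : 2 ^ l₁ = 2 ^ (l₁ - l - 3) * (2 ^ l * 8) := by
        rw [show (8 : ℕ) = 2 ^ 3 by norm_num, ← pow_add, ← pow_add]; congr 1; omega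
      rw [e4] at h5
      have hpos : 0 < 2 ^ (l₁ - l - 3) := by positivity
      have h6 : 2 ^ (l₁ - l - 3) * (B.card * 2 ^ l') ≤
          2 ^ (l₁ - l - 3) * (B'.card * 2 ^ l * 8 ^ (s + 1)) := by
        calc 2 ^ (l₁ - l - 3) * (B.card * 2 ^ l') = B.card * 2 ^ (l₁ - l - 3) * 2 ^ l' := by ring
          _ ≤ _ := h5
          _ = _ := by ring
      exact Nat.le_of_mul_le_mul_left h6 hpos

end Pool.Agent.MP0426f4
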