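import Mathlib
import Pool.Agent.Work.MP_0426f4_nt.Defs
import Pool.Agent.Work.MP_0426f4_nt.Lower

set_option autoImplicit false

namespace Pool.Agent.MP0426f4

theorem noTwo_of_good (n N l : ℕ) (B : Finset ℕ) (hn : 2 ^ N ≤ n) (hl1 : 1 ≤ l)
    (hB : Good N l B) : NoTwoConsecutive n (B.image (· + 1)) := by
  rintro j w hw b i ⟨⟨a₁, ha₁, h1, h1'⟩, ⟨a₂, ha₂, h2, h2'⟩⟩
  obtain ⟨hsmall, hdiff⟩ := hB
  simp only [Finset.mem_image] at ha₁ ha₂
  obtain ⟨x, hx, rfl⟩ := ha₁
  obtain ⟨y, hy, rfl⟩ := ha₂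
  by_cases hj : j < l
  · have h3 := hdiff x hx y hy j hj
    have h4 : |(y : ℤ) - x - 2 ^ j| ≤ w := by
      have e1 : ((b : ℤ) + i * 2 ^ j ≤ x + 1) := by exact_mod_cast h1
      have e2 : ((x : ℤ) + 1 ≤ b + i * 2 ^ j + w) := by exact_mod_cast h1'
      have e3 : ((b : ℤ) + (i + 1) * 2 ^ j ≤ y + 1) := by exact_mod_cast h2
      have e4 : ((y : ℤ) + 1 ≤ b + (i + 1) * 2 ^ j + w) := by exact_mod_cast h2'
      rw [abs_le]; constructor <;> linarith
    have h5 : (w : ℤ) * n < (2 ^ j) ^ 2 := by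
      have : w * n < (2 ^ j) ^ 2 := hw
      exact_mod_cast this
    have h6 : ((2 : ℤ) ^ j) ^ 2 = 4 ^ j := by
      rw [← pow_mul, mul_comm, pow_mul]; norm_num
    have h7 : |(y : ℤ) - x - 2 ^ j| * 2 ^ N ≤ w * 2 ^ N :=
      mul_le_mul_of_nonneg_right h4 (by positivity)
    have h8 : (w : ℤ) * 2 ^ N ≤ w * n := by
      apply mul_le_mul_of_nonneg_left _ (by positivity)
      exact_mod_cast hn
    linarith
  · have h3 := hsmall y hy
    have h4 : 2 ^ l ≤ 2 ^ j := Nat.pow_le_pow_right (by norm_num) (by omega)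
    have h5 : 2 ≤ 2 ^ l := by
      calc 2 = 2 ^ 1 := by norm_num
        _ ≤ 2 ^ l := Nat.pow_le_pow_right (by norm_num) hl1
    have h6 : (i + 1) * 2 ^ j = i * 2 ^ j + 2 ^ j := by ring
    have h7 : 0 ≤ i * 2 ^ j := Nat.zero_le _
    omega

theorem exists_large_nat (n : ℕ) (hn : 64 ≤ n) :
    ∃ A : Finset ℕ, A ⊆ Finset.Icc 1 n ∧ NoTwoConsecutive n A ∧
      27 * n ≤ 64 * (Nat.log 2 n) ^ 3 * A.card := by
  classical
  set N := Nat.log 2 n with hN
  have h2N : 2 ^ N ≤ n := Nat.pow_log_le_self 2 (by omega)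
  have h2N1 : n < 2 ^ (N + 1) := Nat.lt_pow_succ_log_self (by norm_num) n
  have hN6 : 6 ≤ N := by
    exact Nat.le_log_of_pow_le (by norm_num) (by omega)
  -- choose s
  obtain ⟨s, hs1, hs2⟩ : ∃ s : ℕ, 3 * 2 ^ s ≤ N ∧ N < 6 * 2 ^ s := by
    refine ⟨Nat.log 2 (N / 3), ?_, ?_⟩
    · have := Nat.pow_log_le_self 2 (x := N / 3) (by omega)
      omega
    · have := Nat.lt_pow_succ_log_self (b := 2) (by norm_num) (N / 3)
      rw [pow_succ] at this
      omega
  obtain ⟨l, B, h1, h2, h3, h4, h5⟩ := iterate N s 0 {0} (by omega) (by omega)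
    ⟨by simp, by simp⟩
  refine ⟨B.image (· + 1), ?_, noTwo_of_good n N l B h2N (by omega) h4, ?_⟩
  · intro a ha
    simp only [Finset.mem_image] at ha
    obtain ⟨x, hx, rfl⟩ := ha
    have e1 := h4.1 x hx
    have e2 : 2 ^ l ≤ 2 ^ N := Nat.pow_le_pow_right (by norm_num) h2
    simp only [Finset.mem_Icc]
    omega
  · rw [Finset.card_image_of_injective _ (fun a b h => by simpa using h)]
    simp only [Finset.card_singleton, one_mul, pow_zero, mul_one] at h5
    -- 2^l ≤ card * 8^s, 27 * 8^s ≤ N^3, 2^(N+1) ≤ 64 * 2^l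
    have e1 : 27 * 8 ^ s ≤ N ^ 3 := by
      have : (3 * 2 ^ s) ^ 3 ≤ N ^ 3 := Nat.pow_le_pow_left hs1 3
      calc 27 * 8 ^ s = (3 * 2 ^ s) ^ 3 := by
            rw [mul_pow, ← pow_mul, mul_comm s 3, pow_mul]; norm_num
        _ ≤ N ^ 3 := this
    have e2 : 2 ^ (N + 1) ≤ 64 * 2 ^ l := by
      calc 2 ^ (N + 1) ≤ 2 ^ (6 + l) := Nat.pow_le_pow_right (by norm_num) (by omega)
        _ = 64 * 2 ^ l := by rw [pow_add]; norm_num
    calc 27 * n ≤ 27 * (64 * 2 ^ l) := by omega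
      _ ≤ 27 * (64 * (B.card * 8 ^ s)) := by
          exact Nat.mul_le_mul_left _ (Nat.mul_le_mul_left _ h5)
      _ = 64 * (27 * 8 ^ s) * B.card := by ring
      _ ≤ 64 * N ^ 3 * B.card := by
          exact Nat.mul_le_mul_right _ (Nat.mul_le_mul_left _ e1)

theorem noTwo_one (n : ℕ) (hn : 1 ≤ n) : NoTwoConsecutive n {1} := by
  rintro j w hw b i ⟨⟨a₁, ha₁, h1, h1'⟩, ⟨a₂, ha₂, h2, h2'⟩⟩
  simp only [Finset.mem_singleton] at ha₁ ha₂
  subst ha₁ ha₂
  have hj1 : 1 ≤ 2 ^ j := Nat.one_le_two_pow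
  have h6 : (i + 1) * 2 ^ j = i * 2 ^ j + 2 ^ j := by ring
  have h7 : 2 ^ j = 1 := by omega
  have hw' : w * n < (2 ^ j) ^ 2 := hw
  rw [h7] at hw'
  have hw0 : w = 0 := by
    rcases Nat.eq_zero_or_pos w with h | h
    · exact h
    · have : 1 ≤ w * n := Nat.mul_pos h hn
      omega
  omega

theorem log_lower {a : ℕ} {c : ℝ} (h : Real.exp c ≤ a) (_ : 0 < a) : c ≤ Real.log a := by
  rw [Real.le_log_iff_exp_le (by positivity)]
  exact h

/-- Lower bound for all `n ≥ 2`. -/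
theorem exists_lower (n : ℕ) (hn : 2 ≤ n) :
    ∃ A : Finset ℕ, A ⊆ Finset.Icc 1 n ∧ NoTwoConsecutive n A ∧
      (n : ℝ) ≤ 8 * Real.log n ^ 3 * A.card := by
  have hlog2 : (0.6931 : ℝ) < Real.log 2 := by
    have := Real.log_two_gt_d9; linarith
  have hnpos : (0 : ℝ) < n := by
    have : 0 < n := by omega
    exact_mod_cast this
  have hmono : ∀ a : ℕ, 0 < a → a ≤ n → Real.log a ≤ Real.log n := fun a ha hab =>
    Real.log_le_log (by exact_mod_cast ha) (by exact_mod_cast hab)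
  by_cases h64 : 64 ≤ n
  · obtain ⟨A, h1, h2, h3⟩ := exists_large_nat n h64
    refine ⟨A, h1, h2, ?_⟩
    set N := Nat.log 2 n with hN
    have h3' : (27 : ℝ) * n ≤ 64 * (N : ℝ) ^ 3 * A.card := by exact_mod_cast h3
    have h2N : 2 ^ N ≤ n := Nat.pow_log_le_self 2 (by omega)
    have hNlog : (N : ℝ) * Real.log 2 ≤ Real.log n := by
      rw [← Real.log_pow]
      apply Real.log_le_log (by positivity)
      exact_mod_cast h2N
    have hN0 : (0 : ℝ) ≤ N := by positivity
    have h4 : (N : ℝ) * 0.6931 ≤ Real.log n := by nlinarith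
    have h5 : ((N : ℝ) * 0.6931) ^ 3 ≤ Real.log n ^ 3 := by
      apply pow_le_pow_left₀ (by positivity) h4
    have h6 : (N : ℝ) ^ 3 * 0.3329 ≤ Real.log n ^ 3 := by
      have : ((N : ℝ) * 0.6931) ^ 3 = (N : ℝ) ^ 3 * 0.6931 ^ 3 := by ring
      rw [this] at h5
      have hN3 : (0 : ℝ) ≤ (N : ℝ) ^ 3 := by positivity
      nlinarith
    have hA0 : (0 : ℝ) ≤ A.card := by positivity
    have h7 : (N : ℝ) ^ 3 * 0.3329 * A.card ≤ Real.log n ^ 3 * A.card :=
      mul_le_mul_of_nonneg_right h6 hA0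
    have hN3 : (0 : ℝ) ≤ (N : ℝ) ^ 3 * A.card := by positivity
    nlinarith
  · push Not at h64
    refine ⟨{1}, by simp; omega, noTwo_one n (by omega), ?_⟩
    simp only [Finset.card_singleton, Nat.cast_one, mul_one]
    have l2 := hmono 2 (by norm_num) hn
    push_cast at l2
    by_cases h4 : 4 ≤ n
    · have l4 : 2 * Real.log 2 ≤ Real.log n := by
        have := hmono 4 (by norm_num) h4
        have e : Real.log ((4 : ℕ) : ℝ) = 2 * Real.log 2 := by
          rw [show ((4 : ℕ) : ℝ) = 2 ^ 2 by norm_num, Real.log_pow]; norm_num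
        linarith
      by_cases h16 : 16 ≤ n
      · have l16 : 4 * Real.log 2 ≤ Real.log n := by
          have := hmono 16 (by norm_num) h16
          have e : Real.log ((16 : ℕ) : ℝ) = 4 * Real.log 2 := by
            rw [show ((16 : ℕ) : ℝ) = 2 ^ 4 by norm_num, Real.log_pow]; norm_num
          linarith
        have h5 : (2.7 : ℝ) ≤ Real.log n := by linarith
        have h6 : (2.7 : ℝ) ^ 3 ≤ Real.log n ^ 3 := pow_le_pow_left₀ (by norm_num) h5 3
        have h7 : (n : ℝ) ≤ 63 := by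
          have : n ≤ 63 := by omega
          exact_mod_cast this
        norm_num at h6
        linarith
      · have h5 : (1.38 : ℝ) ≤ Real.log n := by linarith
        have h6 : (1.38 : ℝ) ^ 3 ≤ Real.log n ^ 3 := pow_le_pow_left₀ (by norm_num) h5 3
        have h7 : (n : ℝ) ≤ 15 := by
          have : n ≤ 15 := by omega
          exact_mod_cast this
        norm_num at h6
        linarith
    · by_cases h3 : n = 3
      · subst h3
        have e : Real.log 3 = Real.log 2 + Real.log (3 / 2) := by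
          rw [← Real.log_mul (by norm_num) (by norm_num)]; norm_num
        have e2 : (1 / 3 : ℝ) ≤ Real.log (3 / 2) := by
          have := Real.one_sub_inv_le_log_of_pos (x := (3 / 2 : ℝ)) (by norm_num)
          norm_num at this ⊢
          linarith
        have h5 : (1 : ℝ) ≤ Real.log ((3 : ℕ) : ℝ) := by push_cast; linarith
        have h6 : (1 : ℝ) ^ 3 ≤ Real.log ((3 : ℕ) : ℝ) ^ 3 := pow_le_pow_left₀ (by norm_num) h5 3
        push_cast at h6 ⊢
        linarith
      · have h2 : n = 2 := by omega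
        subst h2
        have h6 : (0.6931 : ℝ) ^ 3 ≤ Real.log ((2 : ℕ) : ℝ) ^ 3 := by
          apply pow_le_pow_left₀ (by norm_num)
          push_cast; linarith
        norm_num at h6
        push_cast
        linarith

end Pool.Agent.MP0426f4
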