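import Mathlib
import Pool.Agent.Work.MP_0426f4_nt.Defs

set_option autoImplicit false

namespace Pool.Agent.MP0426f4

/-- Indices of the dyadic blocks of size `2^e` which meet `A`. -/
def blocks (A : Finset ℕ) (e : ℕ) : Finset ℕ := A.image (· / 2 ^ e)

/-- Two blocks of size `2^e'` inside the same nonzero block of size `2^e`, at distance
`2^(e-1)`, are not both met by `A`. -/
theorem no_pair (n N e e' : ℕ) (A : Finset ℕ) (hn : n < 2 ^ N) (hA : Avoids 3 n A)
    (he : 2 * e = e' + N + 2) (hee : e' < e) (q : ℕ) (hq : 2 ^ (e - e') ≤ q)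
    (h1 : q ∈ blocks A e') (h2 : q + 2 ^ (e - e' - 1) ∈ blocks A e') : False := by
  simp only [blocks, Finset.mem_image] at h1 h2
  obtain ⟨a, ha, haq⟩ := h1
  obtain ⟨a', ha', haq'⟩ := h2
  have hP : 0 < 2 ^ e' := by positivity
  have hd : 2 ^ (e - 1) = 2 ^ (e - e' - 1) * 2 ^ e' := by
    rw [← pow_add]; congr 1; omega
  have hd2 : 2 ^ (e - e') = 2 * 2 ^ (e - e' - 1) := by
    rw [← pow_succ']; congr 1; omega
  have hadm : Admissible n (e - 1) (2 ^ e') := by
    unfold Admissible
    calc 2 ^ e' * n < 2 ^ e' * 2 ^ N := Nat.mul_lt_mul_of_pos_left hn hP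
      _ = (2 ^ (e - 1)) ^ 2 := by
          rw [← pow_add, ← pow_mul]; congr 1; omega
  refine hA.2 (e - 1) (2 ^ e') hadm ⟨q * 2 ^ e' - 2 ^ (e - 1), ?_⟩
  have hb : 2 ^ (e - 1) ≤ q * 2 ^ e' := by
    rw [hd]
    exact Nat.mul_le_mul_right _ (by omega)
  have ea : q * 2 ^ e' ≤ a ∧ a < (q + 1) * 2 ^ e' := by
    subst haq
    refine ⟨Nat.div_mul_le_self a _, ?_⟩
    have := Nat.lt_div_mul_add (a := a) hP
    linarith [this]
  have ea' : (q + 2 ^ (e - e' - 1)) * 2 ^ e' ≤ a' ∧
      a' < (q + 2 ^ (e - e' - 1) + 1) * 2 ^ e' := by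
    rw [← haq']
    refine ⟨Nat.div_mul_le_self a' _, ?_⟩
    have := Nat.lt_div_mul_add (a := a') hP
    linarith [this]
  intro i hi
  have hi' : i = 1 ∨ i = 2 := by
    simp only [Finset.mem_Icc] at hi
    omega
  rcases hi' with rfl | rfl
  · refine ⟨a, ha, ?_, ?_⟩
    · rw [one_mul, Nat.sub_add_cancel hb]; exact ea.1
    · rw [one_mul, Nat.sub_add_cancel hb]; linarith [ea.2]
  · have e3 : q * 2 ^ e' - 2 ^ (e - 1) + 2 * 2 ^ (e - 1) =
        (q + 2 ^ (e - e' - 1)) * 2 ^ e' := by
      rw [add_mul, ← hd]; omega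
    refine ⟨a', ha', ?_, ?_⟩
    · rw [e3]; exact ea'.1
    · rw [e3]; linarith [ea'.2]

theorem blocks_step (n N e e' : ℕ) (A : Finset ℕ) (hn : n < 2 ^ N) (hA : Avoids 3 n A)
    (he : 2 * e = e' + N + 2) (hee : e' < e) :
    (blocks A e').card ≤ ((blocks A e).card + 1) * 2 ^ (e - e' - 1) := by
  classical
  set h := 2 ^ (e - e' - 1) with hh
  have hh0 : 0 < h := by positivity
  have hd2 : 2 ^ (e - e') = 2 * h := by
    rw [hh, ← pow_succ']; congr 1; omega
  -- parents
  have hpar : ∀ q ∈ blocks A e', q / (2 * h) ∈ blocks A e := by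
    intro q hq
    simp only [blocks, Finset.mem_image] at hq ⊢
    obtain ⟨a, ha, rfl⟩ := hq
    refine ⟨a, ha, ?_⟩
    rw [Nat.div_div_eq_div_mul, ← hd2, ← pow_add]
    congr 2; omega
  set D := blocks A e' with hD
  have hsplit : D.card = (D.filter (fun q => q < 2 * h)).card +
      (D.filter (fun q => ¬ q < 2 * h)).card :=
    (Finset.card_filter_add_card_filter_not (fun q => q < 2 * h)).symm
  -- nonzero parents
  have hbig : (D.filter (fun q => ¬ q < 2 * h)).card ≤ ((blocks A e).erase 0).card * h := by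
    have : (D.filter (fun q => ¬ q < 2 * h)).card ≤
        (((blocks A e).erase 0) ×ˢ (Finset.range h)).card := by
      apply Finset.card_le_card_of_injOn (fun q => (q / (2 * h), q % h))
      · intro q hq
        simp only [Finset.coe_filter, Set.mem_ofPred_eq, not_lt] at hq
        simp only [Finset.coe_product, Set.mem_prod, Finset.mem_coe, Finset.mem_erase,
          Finset.mem_range]
        refine ⟨⟨?_, hpar q hq.1⟩, Nat.mod_lt _ hh0⟩
        have : 0 < q / (2 * h) := Nat.div_pos hq.2 (by omega)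
        omega
      · intro q hq q' hq' heq
        simp only [Finset.coe_filter, Set.mem_ofPred_eq, not_lt] at hq hq'
        simp only [Prod.mk.injEq] at heq
        obtain ⟨e1, e2⟩ := heq
        by_contra hne
        -- wlog q < q'
        have key : ∀ p p' : ℕ, p ∈ D → p' ∈ D → 2 * h ≤ p → p < p' →
            p / (2 * h) = p' / (2 * h) → p % h = p' % h → False := by
          intro p p' hp hp' hp2 hlt e1 e2
          have f1 : p' < p + 2 * h := by
            have g1 := Nat.div_mul_le_self p (2 * h)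
            have g2 := Nat.lt_div_mul_add (a := p') (b := 2 * h) (by omega)
            rw [← e1] at g2
            omega
          have f2 : h ∣ p' - p := (Nat.modEq_iff_dvd' hlt.le).mp e2
          obtain ⟨c, hc⟩ := f2
          have f3 : c = 1 := by
            rcases Nat.lt_trichotomy c 1 with g | g | g
            · have : c = 0 := by omega
              subst this
              omega
            · exact g
            · have : h * 2 ≤ h * c := Nat.mul_le_mul_left _ g
              omega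
          subst f3
          have f4 : p' = p + h := by omega
          subst f4
          exact no_pair n N e e' A hn hA he hee p (by rw [hd2]; exact hp2) hp hp'
        rcases Nat.lt_or_gt_of_ne hne with g | g
        · exact key q q' hq.1 hq'.1 hq.2 g e1 e2
        · exact key q' q hq'.1 hq.1 hq'.2 g e1.symm e2.symm
    rwa [Finset.card_product, Finset.card_range] at this
  -- zero parent
  have hsmall : (D.filter (fun q => q < 2 * h)).card ≤
      (if 0 ∈ blocks A e then 1 else 0) * (2 * h) := by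
    split_ifs with h0
    · rw [one_mul]
      calc (D.filter (fun q => q < 2 * h)).card ≤ (Finset.range (2 * h)).card := by
            apply Finset.card_le_card
            intro q hq
            simp only [Finset.mem_filter] at hq
            exact Finset.mem_range.2 hq.2
        _ = 2 * h := Finset.card_range _
    · rw [zero_mul, Nat.le_zero, Finset.card_eq_zero, Finset.filter_eq_empty_iff]
      intro q hq hlt
      apply h0
      have := hpar q hq
      rwa [Nat.div_eq_of_lt hlt] at this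
  have hcard : ((blocks A e).erase 0).card + (if 0 ∈ blocks A e then 1 else 0) =
      (blocks A e).card := by
    split_ifs with h0
    · exact Finset.card_erase_add_one h0
    · rw [Finset.erase_eq_of_notMem h0, add_zero]
  rw [hsplit]
  by_cases h0 : 0 ∈ blocks A e
  · rw [if_pos h0] at hsmall hcard
    rw [← hcard]
    nlinarith
  · rw [if_neg h0] at hsmall hcard
    rw [← hcard]
    nlinarith

theorem blocks_bound (n N : ℕ) (A : Finset ℕ) (hn : n < 2 ^ N) (hA : Avoids 3 n A) (i : ℕ) :
    ∀ e : ℕ, e + 2 ^ (i + 1) = N + 2 →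
      (blocks A e).card * 4 ^ i + 2 * 2 ^ (N - e) ≤ 3 * 2 ^ i * 2 ^ (N - e) := by
  induction i with
  | zero =>
    intro e he
    have he' : e = N := by omega
    subst he'
    have : (blocks A e).card ≤ 1 := by
      rw [Finset.card_le_one]
      intro a ha b hb
      simp only [blocks, Finset.mem_image] at ha hb
      obtain ⟨x, hx, rfl⟩ := ha
      obtain ⟨y, hy, rfl⟩ := hb
      have hx1 := Finset.mem_Icc.1 (hA.1 hx)
      have hy1 := Finset.mem_Icc.1 (hA.1 hy)
      rw [Nat.div_eq_of_lt (by omega), Nat.div_eq_of_lt (by omega)]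
    simp only [pow_zero, Nat.sub_self, mul_one]
    omega
  | succ i ih =>
    intro e' he'
    have hp : 2 ^ (i + 1 + 1) = 2 * 2 ^ (i + 1) := by rw [pow_succ]; ring
    have hp1 : 2 ^ (i + 1) = 2 * 2 ^ i := by rw [pow_succ]; ring
    have hi1 : i + 1 ≤ 2 ^ i := Nat.lt_two_pow_self
    set e := e' + 2 ^ (i + 1) with he
    have h1 := ih e (by omega)
    have h2 := blocks_step n N e e' A hn hA (by omega) (by omega)
    -- r = N - e = 2^(i+1) - 2, m = e - e' = 2^(i+1)
    have hr : N - e + 2 = 2 ^ (i + 1) := by omega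
    have hm : e - e' - 1 = N - e + 1 := by omega
    have hr' : N - e' = (N - e) + (N - e + 2) := by omega
    rw [hm] at h2
    rw [hr']
    have h4 : (4 : ℕ) ^ i ≤ 2 ^ (N - e) := by
      rw [show (4 : ℕ) = 2 ^ 2 by norm_num, ← pow_mul]
      exact Nat.pow_le_pow_right (by norm_num) (by omega)
    set R := 2 ^ (N - e) with hR
    have hR1 : 2 ^ (N - e + 1) = 2 * R := by rw [pow_succ]; ring
    have hR2 : 2 ^ (N - e + (N - e + 2)) = 4 * (R * R) := by
      rw [pow_add, pow_add, hR]; ring
    rw [hR1] at h2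
    rw [hR2]
    set c := (blocks A e).card with hc
    set c' := (blocks A e').card with hc'
    set T := 2 ^ i with hT
    have hT4 : (4 : ℕ) ^ (i + 1) = 4 * 4 ^ i := by rw [pow_succ]; ring
    have hT2 : (2 : ℕ) ^ (i + 1) = 2 * T := hp1
    rw [hT4, hT2]
    set F := (4 : ℕ) ^ i with hF
    have h5 : c' * (4 * F) ≤ (c + 1) * (2 * R) * (4 * F) := Nat.mul_le_mul_right _ h2
    have h6 : (c * F + 2 * R) * (8 * R) ≤ 3 * T * R * (8 * R) := Nat.mul_le_mul_right _ h1
    have h7 : F * (8 * R) ≤ R * (8 * R) := Nat.mul_le_mul_right _ h4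
    nlinarith

/-- Upper bound for `t = 3`. -/
theorem card_upper (n : ℕ) (hn : 1 ≤ n) (A : Finset ℕ) (hA : Avoids 3 n A) :
    (A.card : ℝ) * Real.log n ≤ 24 * n := by
  classical
  set N := Nat.log 2 n + 1 with hN
  have hnN : n < 2 ^ N := Nat.lt_pow_succ_log_self (by norm_num) n
  have hNn : 2 ^ N ≤ 2 * n := by
    rw [hN, pow_succ, mul_comm]
    exact Nat.mul_le_mul_left _ (Nat.pow_log_le_self 2 (by omega))
  obtain ⟨i, hi1, hi2⟩ : ∃ i : ℕ, 2 ^ (i + 1) ≤ N + 2 ∧ N + 2 < 4 * 2 ^ i := by
    refine ⟨Nat.log 2 (N + 2) - 1, ?_, ?_⟩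
    · have h1 : 1 ≤ Nat.log 2 (N + 2) := Nat.le_log_of_pow_le (by norm_num) (by omega)
      rw [Nat.sub_add_cancel h1]
      exact Nat.pow_log_le_self 2 (by omega)
    · have h1 : 1 ≤ Nat.log 2 (N + 2) := Nat.le_log_of_pow_le (by norm_num) (by omega)
      have h2 := Nat.lt_pow_succ_log_self (b := 2) (by norm_num) (N + 2)
      have h3 : 2 ^ (Nat.log 2 (N + 2) + 1) = 4 * 2 ^ (Nat.log 2 (N + 2) - 1) := by
        rw [show (4 : ℕ) = 2 ^ 2 by norm_num, ← pow_add]; congr 1; omega
      exact h3 ▸ h2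
  obtain ⟨e, he⟩ : ∃ e, e + 2 ^ (i + 1) = N + 2 := ⟨N + 2 - 2 ^ (i + 1), by omega⟩
  have hb := blocks_bound n N A hnN hA i e he
  have hcard : A.card ≤ (blocks A e).card * 2 ^ e := by
    rw [mul_comm]
    apply Finset.card_le_mul_card_image A (2 ^ e)
    intro k _
    calc (A.filter (fun a => a / 2 ^ e = k)).card ≤
          (Finset.Ico (k * 2 ^ e) (k * 2 ^ e + 2 ^ e)).card := by
          apply Finset.card_le_card
          intro a ha
          simp only [Finset.mem_filter] at ha
          obtain ⟨_, rfl⟩ := ha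
          rw [Finset.mem_Ico]
          exact ⟨Nat.div_mul_le_self a _, Nat.lt_div_mul_add (by positivity)⟩
      _ = 2 ^ e := by simp
  have hiN : 2 ≤ 2 ^ (i + 1) := by
    calc 2 = 2 ^ 1 := by norm_num
      _ ≤ 2 ^ (i + 1) := Nat.pow_le_pow_right (by norm_num) (by omega)
  have heN : e ≤ N := by omega
  have hpow : 2 ^ (N - e) * 2 ^ e = 2 ^ N := by rw [← pow_add]; congr 1; omega
  have h44 : (4 : ℕ) ^ i = 2 ^ i * 2 ^ i := by
    rw [show (4 : ℕ) = 2 * 2 by norm_num, mul_pow]
  have h1 : A.card * 2 ^ i * 2 ^ i ≤ 3 * 2 ^ N * 2 ^ i := by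
    calc A.card * 2 ^ i * 2 ^ i = A.card * 4 ^ i := by rw [h44]; ring
      _ ≤ (blocks A e).card * 2 ^ e * 4 ^ i := Nat.mul_le_mul_right _ hcard
      _ = (blocks A e).card * 4 ^ i * 2 ^ e := by ring
      _ ≤ 3 * 2 ^ i * 2 ^ (N - e) * 2 ^ e := Nat.mul_le_mul_right _ (by omega)
      _ = 3 * 2 ^ N * 2 ^ i := by rw [← hpow]; ring
  have h2 : A.card * 2 ^ i ≤ 3 * 2 ^ N := Nat.le_of_mul_le_mul_right h1 (by positivity)
  have h3 : A.card * (N + 2) ≤ 24 * n := by
    calc A.card * (N + 2) ≤ A.card * (4 * 2 ^ i) := Nat.mul_le_mul_left _ hi2.le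
      _ = 4 * (A.card * 2 ^ i) := by ring
      _ ≤ 4 * (3 * 2 ^ N) := Nat.mul_le_mul_left _ h2
      _ ≤ 24 * n := by omega
  have h4 : (A.card : ℝ) * (N + 2) ≤ 24 * n := by exact_mod_cast h3
  have h5 : Real.log n ≤ N + 2 := by
    have g1 : Real.log n ≤ N * Real.log 2 := by
      rw [← Real.log_pow]
      apply Real.log_le_log
      · exact_mod_cast hn
      · exact_mod_cast hnN.le
    have g2 : Real.log 2 ≤ 1 := by
      have := Real.log_two_lt_d9; linarith
    have g3 : (0 : ℝ) ≤ N := by positivity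
    nlinarith
  have h6 : (A.card : ℝ) * Real.log n ≤ A.card * (N + 2) :=
    mul_le_mul_of_nonneg_left h5 (by positivity)
  linarith

end Pool.Agent.MP0426f4
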