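import Mathlib
import Pool.Agent.Work.MP_0426f4_nt.Defs
import Pool.Agent.Work.MP_0426f4_nt.Lower2
import Pool.Agent.Work.MP_0426f4_nt.Upper

set_option autoImplicit false

namespace Pool.Agent.MP0426f4

theorem avoids_of_noTwo (t n : ℕ) (ht : 3 ≤ t) (A : Finset ℕ) (hA : A ⊆ Finset.Icc 1 n)
    (h : NoTwoConsecutive n A) : Avoids t n A := by
  refine ⟨hA, ?_⟩
  rintro j w hw ⟨b, hb⟩
  exact h j w hw b 1 ⟨hb 1 (Finset.mem_Icc.2 ⟨le_rfl, by omega⟩),
    hb 2 (Finset.mem_Icc.2 ⟨by omega, by omega⟩)⟩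

theorem bdd (t n : ℕ) :
    BddAbove {x : ℝ | ∃ A : Finset ℕ, Avoids t n A ∧ x = (A.card : ℝ) / n} := by
  refine ⟨1, ?_⟩
  rintro x ⟨A, hA, rfl⟩
  have h1 : A.card ≤ n := by
    have := Finset.card_le_card hA.1
    simpa using this
  rcases Nat.eq_zero_or_pos n with h | h
  · subst h; simp
  · rw [div_le_one (by exact_mod_cast h)]
    exact_mod_cast h1

theorem g_lower (t n : ℕ) (ht : 3 ≤ t) (hn : 2 ≤ n) : 1 / (8 * Real.log n ^ 3) ≤ g t n := by
  obtain ⟨A, h1, h2, h3⟩ := exists_lower n hn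
  have hpos : (0 : ℝ) < n := by
    have : 0 < n := by omega
    exact_mod_cast this
  have hlog : 0 < Real.log n := Real.log_pos (by exact_mod_cast hn)
  have h4 : 1 / (8 * Real.log n ^ 3) ≤ (A.card : ℝ) / n := by
    rw [div_le_div_iff₀ (by positivity) hpos]
    linarith
  exact h4.trans (le_csSup (bdd t n) ⟨A, avoids_of_noTwo t n ht A h1 h2, rfl⟩)

theorem g_upper (n : ℕ) (hn : 2 ≤ n) : g 3 n ≤ 24 / Real.log n := by
  have hpos : (0 : ℝ) < n := by
    have : 0 < n := by omega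
    exact_mod_cast this
  have hlog : 0 < Real.log n := Real.log_pos (by exact_mod_cast hn)
  apply csSup_le
  · refine ⟨0, ∅, ⟨Finset.empty_subset _, ?_⟩, by simp⟩
    rintro j w _ ⟨b, hb⟩
    obtain ⟨a, ha, _⟩ := hb 1 (Finset.mem_Icc.2 ⟨le_rfl, by omega⟩)
    simp at ha
  · rintro x ⟨A, hA, rfl⟩
    have := card_upper n (by omega) A hA
    rw [div_le_div_iff₀ hpos hlog]
    exact this

theorem tendsto_aux :
    Filter.Tendsto (fun n : ℕ => Real.log n ^ Real.log (Real.log n) / (8 * Real.log n ^ 3))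
      Filter.atTop Filter.atTop := by
  have hlog : Filter.Tendsto (fun n : ℕ => Real.log (n : ℝ)) Filter.atTop Filter.atTop :=
    Real.tendsto_log_atTop.comp tendsto_natCast_atTop_atTop
  have hloglog : Filter.Tendsto (fun n : ℕ => Real.log (Real.log (n : ℝ)))
      Filter.atTop Filter.atTop := Real.tendsto_log_atTop.comp hlog
  have h1 : Filter.Tendsto (fun n : ℕ => Real.log (n : ℝ) / 8) Filter.atTop Filter.atTop :=
    hlog.atTop_div_const (by norm_num)
  refine Filter.tendsto_atTop_mono' Filter.atTop ?_ h1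
  filter_upwards [hlog.eventually_ge_atTop 1, hloglog.eventually_ge_atTop 4] with n hn1 hn2
  have hpos : (0 : ℝ) < Real.log n := by linarith
  have h2 : Real.log (n : ℝ) ^ (4 : ℕ) ≤ Real.log n ^ Real.log (Real.log n) := by
    rw [← Real.rpow_natCast]
    exact Real.rpow_le_rpow_of_exponent_le hn1 (by exact_mod_cast hn2)
  rw [div_le_div_iff₀ (by norm_num) (by positivity)]
  calc Real.log (n : ℝ) * (8 * Real.log n ^ 3) = Real.log (n : ℝ) ^ (4 : ℕ) * 8 := by ring
    _ ≤ _ := mul_le_mul_of_nonneg_right h2 (by norm_num)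

theorem g_tendsto (t : ℕ) (ht : 3 ≤ t) :
    Filter.Tendsto (fun n : ℕ => g t n * Real.log n ^ Real.log (Real.log n))
      Filter.atTop Filter.atTop := by
  refine Filter.tendsto_atTop_mono' Filter.atTop ?_ tendsto_aux
  filter_upwards [Filter.eventually_ge_atTop 2] with n hn
  have hlog : 0 < Real.log n := Real.log_pos (by exact_mod_cast hn)
  have h1 := g_lower t n ht hn
  have h2 : (0 : ℝ) ≤ Real.log n ^ Real.log (Real.log n) := Real.rpow_nonneg hlog.le _
  calc Real.log (n : ℝ) ^ Real.log (Real.log n) / (8 * Real.log n ^ 3)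
      = 1 / (8 * Real.log n ^ 3) * Real.log n ^ Real.log (Real.log n) := by ring
    _ ≤ _ := mul_le_mul_of_nonneg_right h1 h2

end Pool.Agent.MP0426f4
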